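import Pool.Agent.Helper23.DGL.AE1

/-! Project DGL (MP_800410_an), piece AE: the average energy of the profile -/

set_option autoImplicit false

open MeasureTheory Metric Set Filter Topology
open scoped ContDiff

namespace Pool.Agent.Helper23.DGL

open Pool.Agent.Helper68.DG Pool.Agent.Helper70.DGL

section

variable {ι : Type} [Fintype ι]

theorem inv_dir {v : V ι → ℝ} (hv : Differentiable ℝ v) {e : V ι}
    (h : ∀ x, fderiv ℝ v x e = 0) (x : V ι) (t : ℝ) : v (x + t • e) = v x := by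
  have hg : ∀ t : ℝ, HasDerivAt (fun t : ℝ => v (x + t • e)) 0 t := by
    intro t
    have h1 : HasDerivAt (fun t : ℝ => x + t • e) e t := by
      have h2 := ((hasDerivAt_id t).smul_const e).const_add x
      simpa using h2
    have h3 := ((hv (x + t • e)).hasFDerivAt).comp_hasDerivAt t h1
    rw [h] at h3
    exact h3
  have hc := is_const_of_deriv_eq_zero (fun t => (hg t).differentiableAt)
    (fun t => (hg t).deriv) t 0
  simpa using hc

theorem card_or [DecidableEq ι] (p : ι → Prop) [DecidablePred p] (i₀ : ι) (hi₀ : ¬ p i₀) :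
    Fintype.card {i // p i ∨ i = i₀} = Fintype.card {i // p i} + 1 := by
  rw [Fintype.card_subtype, Fintype.card_subtype]
  have h : (Finset.univ.filter fun i => p i ∨ i = i₀) =
      insert i₀ (Finset.univ.filter fun i => p i) := by
    ext i
    simp only [Finset.mem_filter, Finset.mem_univ, true_and, Finset.mem_insert]
    tauto
  rw [h, Finset.card_insert_of_notMem (by simpa using hi₀)]

/-- the number of bad places of the profile -/
theorem bad_count [DecidableEq ι] (p : ι → Prop) [DecidablePred p] (i₀ : ι) (hi₀ : ¬ p i₀)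
    (e : V ι) (he : e i₀ ≠ 0) (he' : ∀ i, ¬ p i → i ≠ i₀ → e i = 0) {K L η ε R₀ : ℝ}
    (hA : ∀ R : ℝ, R₀ ≤ R → ∀ u : V ι → ℝ, GS K u → Stab u →
      ∀ (a : V {i // p i ∨ i = i₀}) (S : Finset (V {i // p i ∨ i = i₀})), Sep 1 S →
        (∀ z ∈ S, ‖z - a‖ ≤ R) →
        (∀ z ∈ S, ¬ Close K L η (tr (emb (fun i => p i ∨ i = i₀) z) u)) →
        (S.card : ℝ) ≤ ε * R ^ Fintype.card {i // p i ∨ i = i₀})
    {v : V ι → ℝ} (hv : GS K v) (hst : Stab v) (hinv : ∀ x, fderiv ℝ v x e = 0) {R : ℝ}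
    (hR0 : 0 < R) (hR : R₀ ≤ (2 + ‖e‖ / |e i₀|) * R) (a : V {i // p i})
    (Z : Finset (V {i // p i})) (hZ : Sep 1 Z) (hZb : ∀ z ∈ Z, ‖z - a‖ ≤ 2 * R)
    (hbad : ∀ z ∈ Z, ¬ Close K L η (tr (emb p z) v)) :
    (Z.card : ℝ) * R ≤ ε * ((2 + ‖e‖ / |e i₀|) * R) ^ (Fintype.card {i // p i} + 1) := by
  classical
  have hei : 0 < |e i₀| := abs_pos.2 he
  let q : ι → Prop := fun i => p i ∨ i = i₀
  let Φ : V {i // p i} × ℕ → V {i // p i ∨ i = i₀} := fun w =>
    prj (fun i => p i ∨ i = i₀) (emb p w.1 + ((w.2 : ℝ) / |e i₀|) • e)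
  have hΦ : ∀ w, emb (fun i => p i ∨ i = i₀) (Φ w) = emb p w.1 + ((w.2 : ℝ) / |e i₀|) • e := by
    intro w
    ext i
    rw [emb_apply]
    by_cases h : p i ∨ i = i₀
    · rw [dif_pos h]
      rfl
    · rw [dif_neg h]
      push Not at h
      rw [PiLp.add_apply, emb_apply, dif_neg h.1, PiLp.smul_apply, he' i h.1 h.2]
      simp
  have hsep : ∀ w w' : V {i // p i} × ℕ, w.1 ∈ Z → w'.1 ∈ Z → w ≠ w' → 1 ≤ ‖Φ w - Φ w'‖ := by
    intro w w' hw hw' hne
    rw [← norm_emb (fun i => p i ∨ i = i₀), map_sub, hΦ, hΦ]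
    by_cases hj : w.2 = w'.2
    · rw [hj, add_sub_add_right_eq_sub, ← map_sub, norm_emb]
      apply hZ _ hw _ hw'
      intro h
      exact hne (Prod.ext h hj)
    · refine le_trans ?_ (abs_coord_le _ i₀)
      have h1 : (emb p w.1 + ((w.2 : ℝ) / |e i₀|) • e - (emb p w'.1 + ((w'.2 : ℝ) / |e i₀|) • e)) i₀
          = ((w.2 : ℝ) - w'.2) / |e i₀| * e i₀ := by
        rw [PiLp.sub_apply, PiLp.add_apply, PiLp.add_apply, emb_apply, emb_apply, dif_neg hi₀,
          dif_neg hi₀, PiLp.smul_apply, PiLp.smul_apply]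
        simp only [smul_eq_mul]
        ring
      rw [h1, abs_mul, abs_div, abs_abs, div_mul_cancel₀ _ hei.ne']
      have h2 : ((w.2 : ℤ) - w'.2) ≠ 0 := by
        intro h
        apply hj
        omega
      have h3 := Int.one_le_abs h2
      have h4 : (1 : ℝ) ≤ ((|((w.2 : ℤ) - w'.2)| : ℤ) : ℝ) := by exact_mod_cast h3
      rw [Int.cast_abs] at h4
      push_cast at h4
      exact h4
  set N : ℕ := ⌊R⌋₊ + 1 with hN
  have hNR : R ≤ (N : ℝ) := by
    rw [hN]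
    push_cast
    exact (Nat.lt_floor_add_one R).le
  have hjR : ∀ j ∈ Finset.range N, (j : ℝ) ≤ R := by
    intro j hj
    rw [Finset.mem_range, hN] at hj
    have h1 : j ≤ ⌊R⌋₊ := by omega
    exact (Nat.le_floor_iff hR0.le).1 h1
  set S : Finset (V {i // p i ∨ i = i₀}) := (Z ×ˢ Finset.range N).image Φ with hS
  have hcard : S.card = Z.card * N := by
    rw [hS, Finset.card_image_of_injOn, Finset.card_product, Finset.card_range]
    intro w hw w' hw' hww
    rw [Finset.mem_coe, Finset.mem_product] at hw hw'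
    by_contra hne
    have := hsep w w' hw.1 hw'.1 hne
    rw [hww, sub_self, norm_zero] at this
    linarith
  have hSep : Sep 1 S := by
    intro x hx y hy hxy
    rw [hS, Finset.mem_image] at hx hy
    obtain ⟨w, hw, rfl⟩ := hx
    obtain ⟨w', hw', rfl⟩ := hy
    rw [Finset.mem_product] at hw hw'
    apply hsep w w' hw.1 hw'.1
    intro h
    exact hxy (by rw [h])
  have hball : ∀ z ∈ S, ‖z - prj (fun i => p i ∨ i = i₀) (emb p a)‖ ≤
      (2 + ‖e‖ / |e i₀|) * R := by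
    intro x hx
    rw [hS, Finset.mem_image] at hx
    obtain ⟨w, hw, rfl⟩ := hx
    rw [Finset.mem_product] at hw
    have h1 : Φ w - prj (fun i => p i ∨ i = i₀) (emb p a) =
        prj (fun i => p i ∨ i = i₀) (emb p (w.1 - a) + ((w.2 : ℝ) / |e i₀|) • e) := by
      rw [← map_sub, map_sub (emb p)]
      congr 1
      abel
    rw [h1]
    refine (norm_prj_le _ _).trans ((norm_add_le _ _).trans ?_)
    rw [norm_emb, norm_smul, Real.norm_eq_abs, abs_of_nonneg (by positivity)]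
    have h2 := hZb _ hw.1
    have h3 := hjR _ hw.2
    have h4 : (w.2 : ℝ) / |e i₀| * ‖e‖ = (w.2 : ℝ) * (‖e‖ / |e i₀|) := by ring
    rw [h4]
    have h5 : (w.2 : ℝ) * (‖e‖ / |e i₀|) ≤ R * (‖e‖ / |e i₀|) :=
      mul_le_mul_of_nonneg_right h3 (by positivity)
    linarith
  have hclose : ∀ z ∈ S, ¬ Close K L η (tr (emb (fun i => p i ∨ i = i₀) z) v) := by
    intro x hx
    rw [hS, Finset.mem_image] at hx
    obtain ⟨w, hw, rfl⟩ := hx
    rw [Finset.mem_product] at hw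
    have h1 : tr (emb (fun i => p i ∨ i = i₀) (Φ w)) v = tr (emb p w.1) v := by
      funext x
      unfold tr
      rw [hΦ, ← add_assoc]
      exact inv_dir (hv.C1.differentiable one_ne_zero) hinv _ _
    rw [h1]
    exact hbad _ hw.1
  have h := hA _ hR v hv hst _ S hSep hball hclose
  rw [hcard, card_or p i₀ hi₀] at h
  push_cast at h
  refine le_trans ?_ h
  exact mul_le_mul_of_nonneg_left hNR (Nat.cast_nonneg _)

theorem supp_radius {W : V ι → ℝ} (hW : HasCompactSupport W) :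
    ∃ r : ℝ, 0 ≤ r ∧ ∀ y, W y ≠ 0 → ‖y‖ ≤ r := by
  obtain ⟨r, hr⟩ := hW.isCompact.isBounded.exists_norm_le
  refine ⟨max r 0, le_max_right _ _, ?_⟩
  intro y hy
  exact (hr y (subset_tsupport _ hy)).trans (le_max_left _ _)

end

/-- the energy near a good place -/
theorem good_bound (hEA : S_EA) {ι : Type} [Fintype ι] {K L η : ℝ} {u ζ : V ι → ℝ} (hu : GS K u)
    (hζ : T1 ζ) (hζ0 : ∀ x, 0 ≤ ζ x) (hL : ∀ x, ζ x ≠ 0 → ‖x‖ ≤ L) (hc : Close K L η u) :
    ∫ x, ζ x * en u x ≤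
      K ^ 2 * (∫ x, ‖fderiv ℝ ζ x‖) + K * (2 + K ^ 2) * η * ∫ x, ζ x := by
  obtain ⟨g, hg, ham, hgu⟩ := hc
  have h1 := hEA ι K g hg ham ζ hζ hζ0
  have i1 : Integrable fun x => ζ x * en g x := by
    apply integrable_cs (hζ.continuous.mul (continuous_en hg)) hζ.2.mul_right
  have i2 : Integrable fun x => ζ x * en u x := by
    apply integrable_cs (hζ.continuous.mul (continuous_en hu)) hζ.2.mul_right
  have i3 : Integrable fun x => K * (2 + K ^ 2) * η * ζ x :=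
    (integrable_cs hζ.continuous hζ.2).const_mul _
  have h2 : ∫ x, ζ x * en u x ≤ ∫ x, (ζ x * en g x + K * (2 + K ^ 2) * η * ζ x) := by
    apply integral_mono i2 (i1.add i3)
    intro x
    change ζ x * en u x ≤ ζ x * en g x + K * (2 + K ^ 2) * η * ζ x
    by_cases hx : ζ x = 0
    · rw [hx]
      simp
    · obtain ⟨a1, a2⟩ := hgu x (hL x hx)
      have h3 := abs_en_sub_le hu hg x a1 a2
      have h4 := mul_le_mul_of_nonneg_left h3 (hζ0 x)
      linarith
  rw [integral_add i1 i3, integral_const_mul] at h2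
  linarith

/-- the energy near a bad place -/
theorem bad_bound {ι : Type} [Fintype ι] {K : ℝ} {u ζ : V ι → ℝ} (hu : GS K u)
    (hζ : T1 ζ) (hζ0 : ∀ x, 0 ≤ ζ x) :
    ∫ x, ζ x * en u x ≤ (K ^ 2 / 2 + (1 + K ^ 2) ^ 2 / 4) * ∫ x, ζ x := by
  rw [← integral_const_mul]
  apply integral_mono
  · apply integrable_cs (hζ.continuous.mul (continuous_en hu)) hζ.2.mul_right
  · exact (integrable_cs hζ.continuous hζ.2).const_mul _
  · intro x
    simp only
    rw [mul_comm]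
    exact mul_le_mul_of_nonneg_right (en_le hu x) (hζ0 x)

/-- the sum over the cells -/
theorem cells {ι : Type} [Fintype ι] (p : ι → Prop) [DecidablePred p] {K : ℝ} {v : V ι → ℝ}
    (hv : GS K v) {χ χ₀ : V {i // p i} → ℝ} {W : V {i // ¬ p i} → ℝ} (hW : T1 W)
    (hW0 : ∀ y, 0 ≤ W y) (hχ : T1 χ) (hχ₀ : T1 χ₀)
    (Z : Finset (V {i // p i})) (hcov : ∀ y, χ y ≤ ∑ z ∈ Z, χ₀ (y - z)) :
    ∫ x, χ (prj p x) * W (prj (fun i => ¬ p i) x) * en v x ≤
      ∑ z ∈ Z, ∫ x, χ₀ (prj p x) * W (prj (fun i => ¬ p i) x) * en (tr (emb p z) v) x := by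
  have hT : ∀ z, T1 fun y => χ₀ (y - z) := by
    intro z
    refine ⟨?_, ?_⟩
    · have := hχ₀.1
      fun_prop
    · exact hχ₀.2.comp_homeomorph (Homeomorph.subRight z)
  have hi : ∀ z ∈ Z, Integrable fun x =>
      χ₀ (prj p x - z) * W (prj (fun i => ¬ p i) x) * en v x := by
    intro z _
    have h := T1_prod p (hT z) hW
    exact integrable_cs (h.continuous.mul (continuous_en hv)) h.2.mul_right
  have h1 : ∀ z ∈ Z, ∫ x, χ₀ (prj p x) * W (prj (fun i => ¬ p i) x) * en (tr (emb p z) v) x =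
      ∫ x, χ₀ (prj p x - z) * W (prj (fun i => ¬ p i) x) * en v x := by
    intro z _
    rw [integral_shift p χ₀ W v z]
  rw [Finset.sum_congr rfl h1, ← integral_finsetSum _ hi]
  apply integral_mono
  · have h := T1_prod p hχ hW
    exact integrable_cs (h.continuous.mul (continuous_en hv)) h.2.mul_right
  · exact integrable_finsetSum _ hi
  · intro x
    change χ (prj p x) * W (prj (fun i => ¬ p i) x) * en v x ≤
      ∑ z ∈ Z, χ₀ (prj p x - z) * W (prj (fun i => ¬ p i) x) * en v x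
    rw [← Finset.sum_mul, ← Finset.sum_mul]
    apply mul_le_mul_of_nonneg_right _ (en_nonneg v x)
    exact mul_le_mul_of_nonneg_right (hcov _) (hW0 _)

theorem s_AE (hA : S_A) (hCH : S_CH) (hEA : S_EA) : S_AE := by
  classical
  intro ι _ _ p _ i₀ hi₀ hcard e he he' K Cχ
  obtain ⟨Cc, hCc0, hCc⟩ := hCH {i // p i}
  have hc2 : Fintype.card {i // ¬ (p i ∨ i = i₀)} ≤ 2 := by
    rw [Fintype.card_subtype_compl] at hcard ⊢
    rw [card_or p i₀ hi₀]
    omega
  set m : ℕ := Fintype.card {i // p i} with hm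
  refine ⟨5 ^ m * Cc * K ^ 2 + 1, by positivity, ?_⟩
  intro W hW hW0 ρ hρ
  set I0 : ℝ := ∫ y, W y with hI0
  set I1 : ℝ := ∫ y, ‖fderiv ℝ W y‖ with hI1
  have hI0' : 0 ≤ I0 := integral_nonneg hW0
  have hI1' : 0 ≤ I1 := integral_nonneg fun y => norm_nonneg _
  obtain ⟨rW, hrW0, hrW⟩ := supp_radius hW.2
  -- the constants
  set l : ℝ := 1 + 3 * (5 ^ m * Cc * K ^ 2 * I0) / ρ with hl
  have hl1 : 1 ≤ l := by
    have : 0 ≤ 3 * (5 ^ m * Cc * K ^ 2 * I0) / ρ := by positivity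
    linarith
  have hl0 : 0 < l := by linarith
  have hl2 : 5 ^ m * Cc * K ^ 2 * I0 / l ≤ ρ / 3 := by
    rw [div_le_iff₀ hl0]
    have : ρ / 3 * l = ρ / 3 + 5 ^ m * Cc * K ^ 2 * I0 := by
      rw [hl]
      field_simp
    rw [this]
    linarith
  set η : ℝ := ρ / (3 * (5 ^ m * Cc * (|K| * (2 + K ^ 2)) * I0 + 1)) with hη
  have hη0 : 0 < η := by positivity
  have hη2 : 5 ^ m * Cc * (|K| * (2 + K ^ 2)) * I0 * η ≤ ρ / 3 := by
    rw [hη, mul_div_assoc', div_le_iff₀ (by positivity)]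
    nlinarith
  set E : ℝ := K ^ 2 / 2 + (1 + K ^ 2) ^ 2 / 4 with hE
  have hE0 : 0 ≤ E := by positivity
  set εb : ℝ := ρ / (3 * (E * (Cc * l ^ m * I0) + 1)) with hεb
  have hεb0 : 0 < εb := by positivity
  have hεb2 : εb * (E * (Cc * l ^ m * I0)) ≤ ρ / 3 := by
    rw [hεb, div_mul_eq_mul_div, div_le_iff₀ (by positivity)]
    nlinarith
  set Λ : ℝ := 2 + ‖e‖ / |e i₀| with hΛ
  have hΛ2 : 2 ≤ Λ := by
    have : 0 ≤ ‖e‖ / |e i₀| := by positivity
    linarith
  have hΛ0 : 0 < Λ := by linarith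
  obtain ⟨R₁, hR₁⟩ := hA ι (fun i => p i ∨ i = i₀) hc2 K (2 * l + rW) η (εb / Λ ^ (m + 1)) hη0
    (by positivity)
  refine ⟨max l R₁, ?_⟩
  intro R hR v hv hst hinv a χ hχ
  have hRl : l ≤ R := (le_max_left _ _).trans hR
  have hR0 : 0 < R := by linarith
  have hRR : R₁ ≤ Λ * R := by
    have h1 : R₁ ≤ R := (le_max_right _ _).trans hR
    nlinarith
  have hK : 0 ≤ K := hv.K_nonneg
  obtain ⟨Z, hZ1, hZ2, hZ3, hZ4⟩ := exists_net hl0 hRl a
  obtain ⟨χ₀, hχ₀⟩ := hCc l hl1 0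
  obtain ⟨c1, c2, c3, c4, c5, c6, c7, c8⟩ := hχ₀
  obtain ⟨d1, d2, d3, d4, d5, d6, d7, d8⟩ := hχ
  have hcov : ∀ y, χ y ≤ ∑ z ∈ Z, χ₀ (y - z) := by
    intro y
    by_cases hy : ‖y - a‖ ≤ 2 * R
    · obtain ⟨z, hz, hyz⟩ := hZ3 y hy
      have h1 : χ₀ (y - z) = 1 := by
        apply c3
        rw [sub_zero]
        exact hyz.le
      calc χ y ≤ 1 := (d2 y).2
        _ = χ₀ (y - z) := h1.symm
        _ ≤ ∑ z ∈ Z, χ₀ (y - z) :=
          Finset.single_le_sum (f := fun z => χ₀ (y - z)) (fun i _ => (c2 _).1) hz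
    · push Not at hy
      rw [d4 y hy.le]
      exact Finset.sum_nonneg fun i _ => (c2 _).1
  have hsum := cells p hv hW hW0 d1 c1 Z hcov
  set ζ : V ι → ℝ := fun x => χ₀ (prj p x) * W (prj (fun i => ¬ p i) x) with hζ
  have hζT : T1 ζ := T1_prod p c1 hW
  have hζ0 : ∀ x, 0 ≤ ζ x := fun x => mul_nonneg (c2 _).1 (hW0 _)
  have hζL : ∀ x, ζ x ≠ 0 → ‖x‖ ≤ 2 * l + rW := by
    intro x hx
    have h1 : χ₀ (prj p x) ≠ 0 := fun h => hx (by rw [hζ]; simp [h])
    have h2 : W (prj (fun i => ¬ p i) x) ≠ 0 := fun h => hx (by rw [hζ]; simp [h])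
    have h3 : ‖prj p x‖ ≤ 2 * l := by
      by_contra h
      push Not at h
      apply h1
      apply c4
      rw [sub_zero]
      exact h.le
    exact (norm_le_parts p x).trans (add_le_add h3 (hrW _ h2))
  set A0 : ℝ := ∫ x, ζ x with hA0
  set A1 : ℝ := ∫ x, ‖fderiv ℝ ζ x‖ with hA1
  have hA0' : A0 ≤ Cc * l ^ m * I0 := by
    rw [hA0, hζ, integral_split p χ₀ W]
    exact mul_le_mul_of_nonneg_right c6 hI0'
  have hA0n : 0 ≤ A0 := integral_nonneg hζ0
  have hA1' : A1 ≤ Cc * l ^ m * (I0 / l + I1) := by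
    have h := integral_fderiv_prod_le p c1 hW (fun y => (c2 y).1) hW0
    refine h.trans ?_
    have h1 : (∫ z, ‖fderiv ℝ χ₀ z‖) * I0 ≤ Cc / l * l ^ m * I0 :=
      mul_le_mul_of_nonneg_right c7 hI0'
    have h2 : (∫ z, χ₀ z) * I1 ≤ Cc * l ^ m * I1 := mul_le_mul_of_nonneg_right c6 hI1'
    have h3 : Cc * l ^ m * (I0 / l + I1) = Cc / l * l ^ m * I0 + Cc * l ^ m * I1 := by ring
    rw [h3]
    exact add_le_add h1 h2
  -- the bad cells
  set Zb : Finset (V {i // p i}) :=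
    Z.filter fun z => ¬ Close K (2 * l + rW) η (tr (emb p z) v) with hZb
  have hZbc : (Zb.card : ℝ) ≤ εb * R ^ m := by
    have h := bad_count p i₀ hi₀ e he he' hR₁ hv hst hinv hR0 hRR a Zb
      (by
        intro x hx y hy hxy
        rw [hZb, Finset.mem_filter] at hx hy
        exact hl1.trans (hZ1 x hx.1 y hy.1 hxy))
      (by
        intro z hz
        rw [hZb, Finset.mem_filter] at hz
        exact hZ2 z hz.1)
      (by
        intro z hz
        rw [hZb, Finset.mem_filter] at hz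
        exact hz.2)
    rw [← hm, ← hΛ, mul_pow, ← mul_assoc, div_mul_cancel₀ _ (by positivity), pow_succ,
      ← mul_assoc] at h
    exact le_of_mul_le_mul_right h hR0
  have hterm : ∀ z ∈ Z, ∫ x, ζ x * en (tr (emb p z) v) x ≤
      (K ^ 2 * A1 + K * (2 + K ^ 2) * η * A0) +
        (if ¬ Close K (2 * l + rW) η (tr (emb p z) v) then E * A0 else 0) := by
    intro z _
    have hu := GS_tr hv (emb p z)
    have hG : 0 ≤ K ^ 2 * A1 + K * (2 + K ^ 2) * η * A0 := by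
      have : 0 ≤ A1 := integral_nonneg fun x => norm_nonneg _
      positivity
    by_cases hc : Close K (2 * l + rW) η (tr (emb p z) v)
    · rw [if_neg (not_not.2 hc), add_zero]
      exact good_bound hEA hu hζT hζ0 hζL hc
    · rw [if_pos hc]
      have hb := bad_bound hu hζT hζ0
      rw [← hE, ← hA0] at hb
      linarith
  have htot : ∫ x, χ (prj p x) * W (prj (fun i => ¬ p i) x) * en v x ≤
      (Z.card : ℝ) * (K ^ 2 * A1 + K * (2 + K ^ 2) * η * A0) + (Zb.card : ℝ) * (E * A0) := by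
    refine hsum.trans ((Finset.sum_le_sum hterm).trans ?_)
    rw [Finset.sum_add_distrib, Finset.sum_const, nsmul_eq_mul, ← Finset.sum_filter,
      Finset.sum_const, nsmul_eq_mul]
  refine htot.trans ?_
  have g1 : (Z.card : ℝ) * (K ^ 2 * A1 + K * (2 + K ^ 2) * η * A0) ≤
      ((Z.card : ℝ) * l ^ m) * (Cc * (K ^ 2 * (I0 / l + I1) + K * (2 + K ^ 2) * η * I0)) := by
    have k1 : K ^ 2 * A1 ≤ K ^ 2 * (Cc * l ^ m * (I0 / l + I1)) :=
      mul_le_mul_of_nonneg_left hA1' (by positivity)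
    have k2 : K * (2 + K ^ 2) * η * A0 ≤ K * (2 + K ^ 2) * η * (Cc * l ^ m * I0) :=
      mul_le_mul_of_nonneg_left hA0' (by positivity)
    calc (Z.card : ℝ) * (K ^ 2 * A1 + K * (2 + K ^ 2) * η * A0)
        ≤ (Z.card : ℝ) * (K ^ 2 * (Cc * l ^ m * (I0 / l + I1)) +
            K * (2 + K ^ 2) * η * (Cc * l ^ m * I0)) :=
          mul_le_mul_of_nonneg_left (add_le_add k1 k2) (Nat.cast_nonneg _)
      _ = _ := by ring
  have g2 : ((Z.card : ℝ) * l ^ m) * (Cc * (K ^ 2 * (I0 / l + I1) + K * (2 + K ^ 2) * η * I0)) ≤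
      (5 ^ m * R ^ m) * (Cc * (K ^ 2 * (I0 / l + I1) + K * (2 + K ^ 2) * η * I0)) :=
    mul_le_mul_of_nonneg_right hZ4 (by positivity)
  have g3 : (Zb.card : ℝ) * (E * A0) ≤ (εb * R ^ m) * (E * (Cc * l ^ m * I0)) :=
    mul_le_mul hZbc (mul_le_mul_of_nonneg_left hA0' hE0) (by positivity) (by positivity)
  have hRm : 0 < R ^ m := by positivity
  have g4 : (5 ^ m * R ^ m) * (Cc * (K ^ 2 * (I0 / l + I1) + K * (2 + K ^ 2) * η * I0)) =
      R ^ m * (5 ^ m * Cc * K ^ 2 * I0 / l + 5 ^ m * Cc * K ^ 2 * I1 +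
        5 ^ m * Cc * (K * (2 + K ^ 2)) * I0 * η) := by ring
  have g5 : (εb * R ^ m) * (E * (Cc * l ^ m * I0)) =
      R ^ m * (εb * (E * (Cc * l ^ m * I0))) := by ring
  rw [abs_of_nonneg hK] at hη2
  have g6 : 5 ^ m * Cc * K ^ 2 * I0 / l + 5 ^ m * Cc * K ^ 2 * I1 +
        5 ^ m * Cc * (K * (2 + K ^ 2)) * I0 * η + εb * (E * (Cc * l ^ m * I0)) ≤
      (5 ^ m * Cc * K ^ 2 + 1) * (I1 + ρ) := by
    have : 0 ≤ 5 ^ m * Cc * K ^ 2 * ρ := by positivity
    nlinarith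
  calc (Z.card : ℝ) * (K ^ 2 * A1 + K * (2 + K ^ 2) * η * A0) + (Zb.card : ℝ) * (E * A0)
      ≤ R ^ m * (5 ^ m * Cc * K ^ 2 * I0 / l + 5 ^ m * Cc * K ^ 2 * I1 +
        5 ^ m * Cc * (K * (2 + K ^ 2)) * I0 * η) + R ^ m * (εb * (E * (Cc * l ^ m * I0))) := by
        rw [← g4, ← g5]
        exact add_le_add (g1.trans g2) g3
    _ = R ^ m * (5 ^ m * Cc * K ^ 2 * I0 / l + 5 ^ m * Cc * K ^ 2 * I1 +
        5 ^ m * Cc * (K * (2 + K ^ 2)) * I0 * η + εb * (E * (Cc * l ^ m * I0))) := by ring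
    _ ≤ R ^ m * ((5 ^ m * Cc * K ^ 2 + 1) * (I1 + ρ)) :=
        mul_le_mul_of_nonneg_left g6 hRm.le
    _ = (5 ^ m * Cc * K ^ 2 + 1) * R ^ m * (I1 + ρ) := by ring

end Pool.Agent.Helper23.DGL
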