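import Pool.Agent.Helper68.DG.A6b
import Pool.Agent.Helper70.DGL.Fr

/-! Project DGL (MP_800410_an), piece AE, part 1: tools -/

set_option autoImplicit false

open MeasureTheory Metric Set Filter Topology
open scoped ContDiff

namespace Pool.Agent.Helper23.DGL

open Pool.Agent.Helper68.DG Pool.Agent.Helper70.DGL

/-- a maximal separated finite set with a property, if the sizes are bounded -/
theorem exists_maxSep {κ : Type} [Fintype κ] (P : V κ → Prop) {l : ℝ} (hl : 0 < l) (B : ℕ)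
    (hB : ∀ S : Finset (V κ), Sep l S → (∀ z ∈ S, P z) → S.card ≤ B) :
    ∃ S : Finset (V κ), Sep l S ∧ (∀ z ∈ S, P z) ∧ ∀ y, P y → ∃ z ∈ S, ‖y - z‖ < l := by
  classical
  let Q : ℕ → Prop := fun n => ∃ S : Finset (V κ), Sep l S ∧ (∀ z ∈ S, P z) ∧ S.card = n
  have hQ0 : Q 0 := by
    refine ⟨∅, ?_, ?_, rfl⟩
    · intro x hx
      simp at hx
    · intro x hx
      simp at hx
  have hQ := Nat.findGreatest_spec (P := Q) (Nat.zero_le B) hQ0
  obtain ⟨S, h1, h2, h3⟩ := hQ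
  refine ⟨S, h1, h2, ?_⟩
  intro y hy
  by_contra hcon
  push Not at hcon
  have hyS : y ∉ S := by
    intro h
    have := hcon y h
    rw [sub_self, norm_zero] at this
    linarith
  have hS' : Sep l (insert y S) := by
    intro x hx z hz hxz
    rw [Finset.mem_insert] at hx hz
    rcases hx with rfl | hx
    · rcases hz with rfl | hz
      · exact absurd rfl hxz
      · exact hcon z hz
    · rcases hz with rfl | hz
      · rw [norm_sub_rev]
        exact hcon x hx
      · exact h1 x hx z hz hxz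
  have hP' : ∀ z ∈ insert y S, P z := by
    intro z hz
    rw [Finset.mem_insert] at hz
    rcases hz with rfl | hz
    · exact hy
    · exact h2 z hz
  have hc := hB _ hS' hP'
  have hq : Q (S.card + 1) := ⟨insert y S, hS', hP', Finset.card_insert_of_notMem hyS⟩
  rw [Finset.card_insert_of_notMem hyS] at hc
  have := Nat.le_findGreatest hc hq
  omega

/-- packing -/
theorem packing {κ : Type} [Fintype κ] {l R : ℝ} (hl : 0 < l) (hR : 0 ≤ R) (a : V κ)
    (S : Finset (V κ)) (hS : Sep l S) (hb : ∀ z ∈ S, ‖z - a‖ ≤ R) :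
    (S.card : ℝ) * (l / 2) ^ Fintype.card κ ≤ (R + l / 2) ^ Fintype.card κ := by
  classical
  have hd : Set.PairwiseDisjoint (S : Set (V κ)) (fun z => ball z (l / 2)) := by
    intro x hx y hy hxy
    apply ball_disjoint_ball
    have := hS x hx y hy hxy
    rw [dist_eq_norm]
    linarith
  have hsub : (⋃ z ∈ S, ball z (l / 2)) ⊆ ball a (R + l / 2) := by
    intro y hy
    simp only [mem_iUnion, mem_ball, exists_prop] at hy
    obtain ⟨z, hz, hyz⟩ := hy
    rw [mem_ball]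
    have h1 := hb z hz
    rw [← dist_eq_norm] at h1
    have h2 := dist_triangle y z a
    linarith
  have hm : volume (⋃ z ∈ S, ball z (l / 2)) = ∑ z ∈ S, volume (ball z (l / 2)) :=
    measure_biUnion_finset hd (fun z _ => measurableSet_ball)
  have hle := measure_mono (μ := (volume : Measure (V κ))) hsub
  rw [hm] at hle
  have h1 : ∀ z ∈ S, volume (ball z (l / 2)) =
      ENNReal.ofReal ((l / 2) ^ Fintype.card κ) * volume (ball (0 : V κ) 1) := by
    intro z _
    rw [Measure.addHaar_ball_of_pos _ _ (by positivity), finrank_euclideanSpace]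
  have h0 : volume (ball a (R + l / 2)) =
      ENNReal.ofReal ((R + l / 2) ^ Fintype.card κ) * volume (ball (0 : V κ) 1) := by
    rw [Measure.addHaar_ball_of_pos _ _ (by positivity), finrank_euclideanSpace]
  rw [Finset.sum_congr rfl h1, Finset.sum_const, h0, nsmul_eq_mul, ← mul_assoc] at hle
  have hpos : volume (ball (0 : V κ) 1) ≠ 0 := (measure_ball_pos _ _ one_pos).ne'
  have hfin : volume (ball (0 : V κ) 1) ≠ ⊤ := measure_ball_lt_top.ne
  have h2 := (ENNReal.mul_le_mul_iff_left hpos hfin).1 hle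
  have h3 : (S.card : ENNReal) = ENNReal.ofReal (S.card : ℝ) := by
    rw [ENNReal.ofReal_natCast]
  rw [h3, ← ENNReal.ofReal_mul (Nat.cast_nonneg _)] at h2
  exact (ENNReal.ofReal_le_ofReal_iff (by positivity)).1 h2

/-- a net of a ball -/
theorem exists_net {κ : Type} [Fintype κ] {l R : ℝ} (hl : 0 < l) (hR : l ≤ R) (a : V κ) :
    ∃ Z : Finset (V κ), Sep l Z ∧ (∀ z ∈ Z, ‖z - a‖ ≤ 2 * R) ∧
      (∀ y, ‖y - a‖ ≤ 2 * R → ∃ z ∈ Z, ‖y - z‖ < l) ∧
      (Z.card : ℝ) * l ^ Fintype.card κ ≤ 5 ^ Fintype.card κ * R ^ Fintype.card κ := by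
  have key : ∀ S : Finset (V κ), Sep l S → (∀ z ∈ S, ‖z - a‖ ≤ 2 * R) →
      (S.card : ℝ) * l ^ Fintype.card κ ≤ 5 ^ Fintype.card κ * R ^ Fintype.card κ := by
    intro S hS hb
    have h := packing hl (by linarith) a S hS hb
    have h2 : (S.card : ℝ) * l ^ Fintype.card κ =
        2 ^ Fintype.card κ * ((S.card : ℝ) * (l / 2) ^ Fintype.card κ) := by
      rw [div_pow]
      field_simp
    rw [h2]
    calc 2 ^ Fintype.card κ * ((S.card : ℝ) * (l / 2) ^ Fintype.card κ)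
        ≤ 2 ^ Fintype.card κ * (2 * R + l / 2) ^ Fintype.card κ :=
          mul_le_mul_of_nonneg_left h (by positivity)
      _ = (2 * (2 * R + l / 2)) ^ Fintype.card κ := by rw [mul_pow]
      _ ≤ (5 * R) ^ Fintype.card κ := by
          apply pow_le_pow_left₀ (by linarith)
          linarith
      _ = 5 ^ Fintype.card κ * R ^ Fintype.card κ := by rw [mul_pow]
  obtain ⟨B, hB⟩ := exists_nat_ge (5 ^ Fintype.card κ * R ^ Fintype.card κ / l ^ Fintype.card κ)
  obtain ⟨Z, h1, h2, h3⟩ := exists_maxSep (fun z => ‖z - a‖ ≤ 2 * R) hl B (by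
    intro S hS hb
    have h := key S hS hb
    rw [← le_div_iff₀ (by positivity)] at h
    exact_mod_cast h.trans hB)
  exact ⟨Z, h1, h2, h3, key Z h1 h2⟩

section energy

variable {ι : Type} [Fintype ι]

theorem en_nonneg (u : V ι → ℝ) (x : V ι) : 0 ≤ en u x := by
  unfold en
  have := gd_self_nonneg u x
  positivity

theorem continuous_en {K : ℝ} {u : V ι → ℝ} (hu : GS K u) : Continuous (en u) := by
  unfold en
  have h1 := continuous_gd hu.C1 hu.C1
  have h2 := hu.C1.continuous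
  fun_prop

theorem en_le {K : ℝ} {u : V ι → ℝ} (hu : GS K u) (x : V ι) :
    en u x ≤ K ^ 2 / 2 + (1 + K ^ 2) ^ 2 / 4 := by
  unfold en
  have hK := hu.K_nonneg
  have h1 : gd u u x ≤ K ^ 2 := by
    rw [gd_self]
    exact pow_le_pow_left₀ (norm_nonneg _) (hu.bdd1 x) 2
  have h2 : u x ^ 2 ≤ K ^ 2 := by
    have := hu.bdd x
    rw [← sq_abs]
    exact pow_le_pow_left₀ (abs_nonneg _) this 2
  have h3 : (1 - u x ^ 2) ^ 2 ≤ (1 + K ^ 2) ^ 2 := by
    apply sq_le_sq'
    · nlinarith [sq_nonneg (u x)]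
    · nlinarith [sq_nonneg (u x)]
  linarith

theorem abs_en_sub_le {K η : ℝ} {u g : V ι → ℝ} (hu : GS K u) (hg : GS K g) (x : V ι)
    (h1 : |u x - g x| ≤ η) (h2 : ‖fderiv ℝ u x - fderiv ℝ g x‖ ≤ η) :
    en u x ≤ en g x + K * (2 + K ^ 2) * η := by
  have hK := hu.K_nonneg
  have hη : 0 ≤ η := (abs_nonneg _).trans h1
  unfold en
  rw [gd_self, gd_self]
  have a1 := hu.bdd1 x
  have a2 := hg.bdd1 x
  have a3 := hu.bdd x
  have a4 := hg.bdd x
  have b1 : ‖fderiv ℝ u x‖ - ‖fderiv ℝ g x‖ ≤ η := (norm_sub_norm_le _ _).trans h2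
  have b2 : ‖fderiv ℝ u x‖ ^ 2 - ‖fderiv ℝ g x‖ ^ 2 ≤ 2 * K * η := by
    have n1 := norm_nonneg (fderiv ℝ u x)
    have n2 := norm_nonneg (fderiv ℝ g x)
    have e : ‖fderiv ℝ u x‖ ^ 2 - ‖fderiv ℝ g x‖ ^ 2 =
        (‖fderiv ℝ u x‖ - ‖fderiv ℝ g x‖) * (‖fderiv ℝ u x‖ + ‖fderiv ℝ g x‖) := by ring
    rw [e]
    calc (‖fderiv ℝ u x‖ - ‖fderiv ℝ g x‖) * (‖fderiv ℝ u x‖ + ‖fderiv ℝ g x‖)
        ≤ η * (‖fderiv ℝ u x‖ + ‖fderiv ℝ g x‖) := mul_le_mul_of_nonneg_right b1 (by linarith)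
      _ ≤ η * (2 * K) := mul_le_mul_of_nonneg_left (by linarith) hη
      _ = 2 * K * η := by ring
  have s1 : u x ^ 2 ≤ K ^ 2 := by
    rw [← sq_abs]
    exact pow_le_pow_left₀ (abs_nonneg _) a3 2
  have s2 : g x ^ 2 ≤ K ^ 2 := by
    rw [← sq_abs]
    exact pow_le_pow_left₀ (abs_nonneg _) a4 2
  have b3 : (1 - u x ^ 2) ^ 2 - (1 - g x ^ 2) ^ 2 ≤ 4 * K * (1 + K ^ 2) * η := by
    have e : (1 - u x ^ 2) ^ 2 - (1 - g x ^ 2) ^ 2 =
        (u x - g x) * ((u x + g x) * (u x ^ 2 + g x ^ 2 - 2)) := by ring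
    rw [e]
    have c1 : |(u x + g x) * (u x ^ 2 + g x ^ 2 - 2)| ≤ 2 * K * (2 * (1 + K ^ 2)) := by
      rw [abs_mul]
      apply mul_le_mul _ _ (abs_nonneg _) (by linarith)
      · exact (abs_add_le _ _).trans (by linarith)
      · rw [abs_le]
        constructor <;> nlinarith [sq_nonneg (u x), sq_nonneg (g x)]
    calc (u x - g x) * ((u x + g x) * (u x ^ 2 + g x ^ 2 - 2))
        ≤ |(u x - g x) * ((u x + g x) * (u x ^ 2 + g x ^ 2 - 2))| := le_abs_self _
      _ = |u x - g x| * |(u x + g x) * (u x ^ 2 + g x ^ 2 - 2)| := abs_mul _ _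
      _ ≤ η * (2 * K * (2 * (1 + K ^ 2))) := mul_le_mul h1 c1 (abs_nonneg _) hη
      _ = 4 * K * (1 + K ^ 2) * η := by ring
  have e2 : K * (2 + K ^ 2) * η = (2 * K * η) / 2 + (4 * K * (1 + K ^ 2) * η) / 4 := by ring
  rw [e2]
  linarith

theorem fderiv_tr (v : V ι) (u : V ι → ℝ) (x : V ι) :
    fderiv ℝ (tr v u) x = fderiv ℝ u (x + v) := by
  unfold tr
  rw [fderiv_comp_add_right]

theorem en_tr (v : V ι) (u : V ι → ℝ) (x : V ι) : en (tr v u) x = en u (x + v) := by
  unfold en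
  rw [gd_self, gd_self, fderiv_tr]
  rfl

theorem GS_tr {K : ℝ} {u : V ι → ℝ} (hu : GS K u) (v : V ι) : GS K (tr v u) := by
  have hf : fderiv ℝ (tr v u) = fun x => fderiv ℝ u (x + v) := by
    funext x
    exact fderiv_tr v u x
  refine ⟨?_, ?_, ?_, ?_, ?_, ?_⟩
  · unfold tr
    have := hu.smooth
    fun_prop
  · intro x
    have := hu.eqn (x + v)
    unfold tr
    rw [lap_translate]
    exact this
  · intro x
    exact hu.bdd (x + v)
  · intro x
    rw [hf]
    exact hu.bdd1 (x + v)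
  · intro x y
    rw [hf]
    have := hu.lip1 (x + v) (y + v)
    rw [add_sub_add_right_eq_sub] at this
    exact this
  · intro x y
    have h2 : ∀ z, fderiv ℝ (fderiv ℝ (tr v u)) z = fderiv ℝ (fderiv ℝ u) (z + v) := by
      intro z
      rw [hf, fderiv_comp_add_right]
    rw [h2, h2]
    have := hu.lip2 (x + v) (y + v)
    rw [add_sub_add_right_eq_sub] at this
    exact this

end energy

section prod

variable {ι : Type} [Fintype ι] (p : ι → Prop) [DecidablePred p]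

theorem norm_prj_le (x : V ι) : ‖prj p x‖ ≤ ‖x‖ := by
  rw [EuclideanSpace.norm_eq, EuclideanSpace.norm_eq]
  apply Real.sqrt_le_sqrt
  rw [← Fintype.sum_subtype_add_sum_subtype p (fun i => ‖x i‖ ^ 2)]
  have : 0 ≤ ∑ i : {i // ¬ p i}, ‖x i.1‖ ^ 2 := Finset.sum_nonneg fun i _ => sq_nonneg _
  simp only [prj_apply]
  linarith

theorem norm_fderiv_prj_le {f : V {i // p i} → ℝ} (hf : Differentiable ℝ f) (x : V ι) :
    ‖fderiv ℝ (fun x => f (prj p x)) x‖ ≤ ‖fderiv ℝ f (prj p x)‖ := by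
  have h1 : HasFDerivAt (fun x => f (prj p x)) ((fderiv ℝ f (prj p x)).comp (prj p)) x :=
    (hf (prj p x)).hasFDerivAt.comp x (prj p).hasFDerivAt
  rw [h1.fderiv]
  apply ContinuousLinearMap.opNorm_le_bound _ (norm_nonneg _)
  intro y
  rw [ContinuousLinearMap.comp_apply]
  exact ((fderiv ℝ f (prj p x)).le_opNorm _).trans
    (mul_le_mul_of_nonneg_left (norm_prj_le p y) (norm_nonneg _))

theorem norm_fderiv_prod_le {f : V {i // p i} → ℝ} {g : V {i // ¬ p i} → ℝ}
    (hf : Differentiable ℝ f) (hg : Differentiable ℝ g) (x : V ι) :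
    ‖fderiv ℝ (fun x => f (prj p x) * g (prj (fun i => ¬ p i) x)) x‖ ≤
      ‖fderiv ℝ f (prj p x)‖ * |g (prj (fun i => ¬ p i) x)| +
      |f (prj p x)| * ‖fderiv ℝ g (prj (fun i => ¬ p i) x)‖ := by
  have h1 : DifferentiableAt ℝ (fun x => f (prj p x)) x :=
    (hf (prj p x)).comp x (prj p).differentiableAt
  have h2 : DifferentiableAt ℝ (fun x => g (prj (fun i => ¬ p i) x)) x :=
    (hg (prj (fun i => ¬ p i) x)).comp x (prj (fun i => ¬ p i)).differentiableAt
  rw [fderiv_fun_mul h1 h2]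
  refine (norm_add_le _ _).trans ?_
  rw [norm_smul, norm_smul, Real.norm_eq_abs, Real.norm_eq_abs]
  have a1 := norm_fderiv_prj_le p hf x
  have a2 := norm_fderiv_prj_le (fun i => ¬ p i) hg x
  have b1 := mul_le_mul_of_nonneg_left a1 (abs_nonneg (g (prj (fun i => ¬ p i) x)))
  have b2 := mul_le_mul_of_nonneg_left a2 (abs_nonneg (f (prj p x)))
  linarith [mul_comm ‖fderiv ℝ f (prj p x)‖ |g (prj (fun i => ¬ p i) x)|]

theorem T1_prod {f : V {i // p i} → ℝ} {g : V {i // ¬ p i} → ℝ} (hf : T1 f) (hg : T1 g) :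
    T1 (fun x => f (prj p x) * g (prj (fun i => ¬ p i) x)) := by
  refine ⟨?_, a6b_cs p hf.2 hg.2⟩
  have h1 := hf.1
  have h2 := hg.1
  exact (h1.comp (prj p).contDiff).mul (h2.comp (prj (fun i => ¬ p i)).contDiff)

theorem integral_fderiv_prod_le {f : V {i // p i} → ℝ} {g : V {i // ¬ p i} → ℝ}
    (hf : T1 f) (hg : T1 g) (hf0 : ∀ z, 0 ≤ f z) (hg0 : ∀ z, 0 ≤ g z) :
    ∫ x, ‖fderiv ℝ (fun x => f (prj p x) * g (prj (fun i => ¬ p i) x)) x‖ ≤
      (∫ z, ‖fderiv ℝ f z‖) * (∫ y, g y) + (∫ z, f z) * ∫ y, ‖fderiv ℝ g y‖ := by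
  have hf1 : Continuous fun z => ‖fderiv ℝ f z‖ := (hf.1.continuous_fderiv one_ne_zero).norm
  have hf2 : HasCompactSupport fun z => ‖fderiv ℝ f z‖ := (hf.2.fderiv (𝕜 := ℝ)).norm
  have hg1 : Continuous fun z => ‖fderiv ℝ g z‖ := (hg.1.continuous_fderiv one_ne_zero).norm
  have hg2 : HasCompactSupport fun z => ‖fderiv ℝ g z‖ := (hg.2.fderiv (𝕜 := ℝ)).norm
  have i1 := a6b_int p hf1 hg.continuous hf2 hg.2
  have i2 := a6b_int p hf.continuous hg1 hf.2 hg2
  rw [← integral_split p (fun z => ‖fderiv ℝ f z‖) g,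
    ← integral_split p f (fun z => ‖fderiv ℝ g z‖), ← integral_add i1 i2]
  apply integral_mono_of_nonneg
  · exact Filter.Eventually.of_forall fun x => norm_nonneg _
  · exact i1.add i2
  · apply Filter.Eventually.of_forall
    intro x
    have := norm_fderiv_prod_le p (hf.1.differentiable one_ne_zero)
      (hg.1.differentiable one_ne_zero) x
    rw [abs_of_nonneg (hg0 _), abs_of_nonneg (hf0 _)] at this
    exact this

theorem prj_compl_emb (z : V {i // p i}) : prj (fun i => ¬ p i) (emb p z) = 0 := by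
  ext i
  rw [prj_apply, emb_apply, dif_neg i.2]
  rfl

/-- change of variables -/
theorem integral_shift (f : V {i // p i} → ℝ) (g : V {i // ¬ p i} → ℝ) (v : V ι → ℝ)
    (z : V {i // p i}) :
    ∫ x, f (prj p x - z) * g (prj (fun i => ¬ p i) x) * en v x =
      ∫ x, f (prj p x) * g (prj (fun i => ¬ p i) x) * en (tr (emb p z) v) x := by
  rw [← integral_add_right_eq_self _ (emb p z)]
  congr 1
  funext x
  rw [map_add, map_add, prj_emb, prj_compl_emb, add_zero, add_sub_cancel_right, en_tr]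

/-- the norm of a point in terms of the two parts -/
theorem norm_le_parts (x : V ι) : ‖x‖ ≤ ‖prj p x‖ + ‖prj (fun i => ¬ p i) x‖ := by
  conv_lhs => rw [a6b_split p x]
  refine (norm_add_le _ _).trans ?_
  rw [norm_emb, norm_emb]

end prod

end Pool.Agent.Helper23.DGL
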