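import Pool.Agent.Helper68.DG.A1a
import Pool.Agent.Helper68.DG.A5b
import Pool.Agent.Helper23.DGL.AE1

/-! Project DGL (MP_800410_an), piece BD: stable bounded solutions are bounded by one -/

set_option autoImplicit false

open MeasureTheory Metric Set Filter Topology
open scoped ContDiff

namespace Pool.Agent.Helper23.DGL

open Pool.Agent.Helper68.DG Pool.Agent.Helper70.DGL

variable {ι : Type} [Fintype ι]

theorem Stab_tr {u : V ι → ℝ} (hst : Stab u) (a : V ι) : Stab (tr a u) := by
  intro ζ hζ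
  have h1 := hst _ (a5b_T1_translate hζ (-a))
  have h2 : ∫ x, cc (tr a u) x * ζ x ^ 2 = ∫ x, cc u x * ζ (x + -a) ^ 2 := by
    rw [← integral_add_right_eq_self (fun x => cc u x * ζ (x + -a) ^ 2) a]
    congr 1
    funext x
    rw [add_neg_cancel_right]
    rfl
  have h3 : ∫ x, gd (fun y => ζ (y + -a)) (fun y => ζ (y + -a)) x = ∫ x, gd ζ ζ x := by
    rw [← integral_add_right_eq_self (fun x => gd (fun y => ζ (y + -a)) (fun y => ζ (y + -a)) x) a]
    congr 1
    funext x
    unfold gd
    apply Finset.sum_congr rfl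
    intro i _
    rw [pd_translate, add_neg_cancel_right]
  rw [h2, ← h3]
  exact h1

theorem GS_neg {K : ℝ} {u : V ι → ℝ} (hu : GS K u) : GS K fun x => -u x := by
  have h1 : ∀ x, fderiv ℝ (fun x => -u x) x = -fderiv ℝ u x := fun x => fderiv_fun_neg
  have h1' : fderiv ℝ (fun x => -u x) = fun x => -fderiv ℝ u x := funext h1
  have h2 : ∀ x, fderiv ℝ (fderiv ℝ (fun x => -u x)) x = -fderiv ℝ (fderiv ℝ u) x := by
    intro x
    rw [h1']
    exact fderiv_fun_neg
  refine ⟨hu.smooth.neg, ?_, ?_, ?_, ?_, ?_⟩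
  · intro x
    have h3 : (fun x => -u x) = fun x => (-1 : ℝ) * u x := by
      funext x
      ring
    have h4 : lap (fun x => -u x) x = -lap u x := by
      rw [h3, lap_const_mul _ hu.smooth]
      ring
    rw [h4]
    have := hu.eqn x
    linear_combination -this
  · intro x
    rw [abs_neg]
    exact hu.bdd x
  · intro x
    rw [h1, norm_neg]
    exact hu.bdd1 x
  · intro x y
    rw [h1, h1, neg_sub_neg, norm_sub_rev]
    exact hu.lip1 x y
  · intro x y
    rw [h2, h2, neg_sub_neg, norm_sub_rev x y]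
    exact hu.lip2 y x

theorem Stab_neg {u : V ι → ℝ} (hst : Stab u) : Stab fun x => -u x := by
  intro ζ hζ
  have h : cc (fun x => -u x) = cc u := by
    funext x
    unfold cc
    ring
  rw [h]
  exact hst ζ hζ

theorem le_one (hSQ : S_SQ) {K : ℝ} {u : V ι → ℝ} (hu : GS K u) (hst : Stab u) (x : V ι) :
    u x ≤ 1 := by
  have hb : BddAbove (range u) := ⟨K, by
    rintro _ ⟨y, rfl⟩
    exact (le_abs_self _).trans (hu.bdd y)⟩
  set s : ℝ := ⨆ y, u y with hs
  have hle : ∀ y, u y ≤ s := fun y => le_ciSup hb y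
  have hex : ∀ n : ℕ, ∃ y, s - 1 / ((n : ℝ) + 1) < u y := by
    intro n
    apply exists_lt_of_lt_ciSup
    have : 0 < 1 / ((n : ℝ) + 1) := by positivity
    linarith
  choose y hy using hex
  obtain ⟨φ, hφ, v, hv, -, hlim, -⟩ := hSQ ι K (fun n => tr (y n) u) (fun n => GS_tr hu _)
    (fun n => Stab_tr hst _)
  have hvle : ∀ z, v z ≤ s := fun z => le_of_tendsto (hlim z)
    (Filter.Eventually.of_forall fun n => hle _)
  have hv0 : v 0 = s := by
    apply le_antisymm (hvle 0)
    have h1 : Tendsto (fun n : ℕ => s - 1 / ((n : ℝ) + 1)) atTop (𝓝 (s - 0)) :=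
      tendsto_const_nhds.sub tendsto_one_div_add_atTop_nhds_zero_nat
    rw [sub_zero] at h1
    refine le_of_tendsto_of_tendsto (h1.comp hφ.tendsto_atTop) (hlim 0)
      (Filter.Eventually.of_forall fun n => ?_)
    change s - 1 / ((φ n : ℝ) + 1) ≤ u (0 + y (φ n))
    rw [zero_add]
    exact (hy (φ n)).le
  have hmax : IsLocalMax v 0 := by
    apply Filter.Eventually.of_forall
    intro z
    rw [hv0]
    exact hvle z
  have hlap := lap_nonpos hv.smooth hmax
  have he := hv.eqn 0
  rw [hv0] at he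
  refine (hle x).trans ?_
  by_contra hcon
  push Not at hcon
  nlinarith [mul_pos (sub_pos.2 hcon) (by linarith : (0 : ℝ) < s + 1)]

theorem s_BD (hSQ : S_SQ) : S_BD := by
  intro ι _ K u hu hst x
  rw [abs_le]
  constructor
  · have := le_one hSQ (GS_neg hu) (Stab_neg hst) x
    linarith
  · exact le_one hSQ hu hst x

end Pool.Agent.Helper23.DGL
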